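import Pool.Agent.helper53.ORT.Spec

/-! Row `ort:NOM`: semisimilarities normalise `Om`. -/

set_option autoImplicit false

namespace Pool.Agent.ORT

open Module Pool.Agent.GS

theorem NOM_inv {F V : Type} [Field F] [AddCommGroup V] [Module F V]
    {B : LinearMap.BilinForm F V} {y : Equiv.Perm V} {ψ : F ≃+* F} {ν : F} (hy : Sim B y ψ ν) :
    Sim B y⁻¹ ψ.symm (ψ.symm ν⁻¹) where
  ne := by
    intro h
    have h1 : ν⁻¹ = 0 := by
      have := congrArg ψ h
      rwa [RingEquiv.apply_symm_apply, map_zero] at this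
    exact hy.ne (inv_eq_zero.1 h1)
  add := hy.inv_add
  smul := hy.inv_smul
  form := by
    intro u v
    apply ψ.injective
    rw [map_mul, RingEquiv.apply_symm_apply, RingEquiv.apply_symm_apply]
    have h := hy.form (y⁻¹ u) (y⁻¹ v)
    rw [pinv, pinv] at h
    rw [h, ← mul_assoc, inv_mul_cancel₀ hy.ne, one_mul]

theorem NOM : NOM_stmt := by
  intro F V _ _ _ B y ψ ν hy g
  have hmap : (SpG B).map (MulAut.conj y).toMonoidHom = SpG B := by
    apply le_antisymm
    · rintro _ ⟨h, hh, rfl⟩
      exact hy.conj_mem hh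
    · intro h hh
      refine ⟨y⁻¹ * h * y, ?_, ?_⟩
      · have h1 := (NOM_inv hy).conj_mem hh
        rw [inv_inv] at h1
        exact h1
      · change y * (y⁻¹ * h * y) * y⁻¹ = h
        group
  have hOm : (Om B).map (MulAut.conj y).toMonoidHom = Om B := by
    unfold Om
    rw [Subgroup.map_commutator, hmap]
  constructor
  · intro hg
    have h1 : (MulAut.conj y).toMonoidHom g ∈ (Om B).map (MulAut.conj y).toMonoidHom :=
      Subgroup.mem_map_of_mem _ hg
    rw [hOm] at h1
    exact h1
  · intro hg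
    have h1 : y * g * y⁻¹ ∈ (Om B).map (MulAut.conj y).toMonoidHom := by
      rw [hOm]
      exact hg
    obtain ⟨k, hk, hk2⟩ := h1
    have h2 : y * k * y⁻¹ = y * g * y⁻¹ := hk2
    have h3 : k = g := mul_left_cancel (mul_right_cancel h2)
    rwa [← h3]

end Pool.Agent.ORT
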