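import Pool.Agent.helper53.ORT.Spec

/-! Row `ort:UPN`. -/

set_option autoImplicit false

namespace Pool.Agent.ORT

open Module Pool.Agent.GS

theorem UPN_pow {F V : Type} [Field F] [AddCommGroup V] [Module F V] (z : Equiv.Perm V)
    (N : V →ₗ[F] V) (hN : ∀ v, z v = v + N v) (h3 : ∀ v, N (N (N v)) = 0) (j : ℕ) :
    ∃ b : F, ∀ v, (z ^ j) v = v + (j : F) • N v + b • N (N v) := by
  induction j with
  | zero => exact ⟨0, fun v => by simp⟩
  | succ j ih =>
    obtain ⟨b, hb⟩ := ih
    refine ⟨(j : F) + b, fun v => ?_⟩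
    rw [pow_succ, Equiv.Perm.mul_apply, hb (z v), hN v]
    simp only [map_add, h3, add_zero, smul_add, add_smul, Nat.cast_add, Nat.cast_one, one_smul]
    abel

theorem UPN : UPN_stmt := by
  intro F V _ _ _ _ _ z hz hne hup j c hc
  let N : V →ₗ[F] V :=
    { toFun := fun v => z v - v
      map_add' := by
        intro u v
        rw [hz.1]
        abel
      map_smul' := by
        intro a v
        rw [hz.2, RingHom.id_apply, smul_sub] }
  have hN : ∀ v, z v = v + N v := fun v => by
    change z v = v + (z v - v)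
    abel
  have h3 : ∀ v, N (N (N v)) = 0 := by
    intro v
    have h := hup v
    have e1 : z (z v) = v + N v + (N v + N (N v)) := by
      rw [hN (z v), hN v, map_add]
    have e2 : z (z (z v)) = v + N v + (N v + N (N v)) +
        (N v + N (N v) + (N (N v) + N (N (N v)))) := by
      rw [hN (z (z v)), e1]
      simp only [map_add]
    rw [e2, e1, hN v] at h
    rw [← h]
    abel
  obtain ⟨u, hu⟩ : ∃ u, N u ≠ 0 := by
    by_contra hcon
    push Not at hcon
    exact hne (Equiv.ext fun v => by rw [hN v, hcon v, add_zero]; rfl)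
  obtain ⟨b, hb⟩ := UPN_pow z N hN h3 j
  obtain ⟨w, hw0, hw1⟩ : ∃ w, w ≠ 0 ∧ N w = 0 := by
    by_cases h2 : N (N u) = 0
    · exact ⟨N u, hu, h2⟩
    · exact ⟨N (N u), h2, h3 u⟩
  have hc1 : c = 1 := by
    have h1 := hc w
    rw [hb w, hw1, map_zero, smul_zero, smul_zero, add_zero, add_zero] at h1
    have h2 : (c - 1) • w = 0 := by
      rw [sub_smul, one_smul, ← h1, sub_self]
    rcases smul_eq_zero.1 h2 with h | h
    · exact sub_eq_zero.1 h
    · exact absurd h hw0
  have hj : ∀ v, (j : F) • N v + b • N (N v) = 0 := by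
    intro v
    have h1 := hc v
    rw [hb v, hc1, one_smul] at h1
    have h2 : v + ((j : F) • N v + b • N (N v)) = v := by
      rw [← add_assoc]
      exact h1
    exact add_eq_left.1 h2
  have hj0 : (j : F) = 0 := by
    by_contra hjne
    have h2 : ∀ v, N (N v) = 0 := by
      intro v
      have h4 := congrArg N (hj v)
      rw [map_add, map_smul, map_smul, h3, smul_zero, add_zero, map_zero] at h4
      rcases smul_eq_zero.1 h4 with h | h
      · exact absurd h hjne
      · exact h
    have h5 := hj u
    rw [h2, smul_zero, add_zero] at h5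
    rcases smul_eq_zero.1 h5 with h | h
    · exact hjne h
    · exact hu h
  exact (ringChar.spec F j).1 hj0

end Pool.Agent.ORT
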